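import Mathlib
import Pool.Agent.Helper18.UW.GoalsA

set_option autoImplicit false

namespace Pool.Agent.Helper16.UW

open Finset
open Pool.Agent.Helper18.UW

theorem cc_zero : cc 0 = 1 := by simp [cc]

theorem cc_one : cc 1 = 1 / 2 := by
  simp only [cc, Finset.prod_range_one, Nat.cast_zero, sub_zero]
  norm_num

theorem cc_succ (k : ℕ) (hk : 1 ≤ k) : cc (k + 1) = cc k * ((k : ℝ) - 1 / 2) := by
  have h1 : (1 : ℝ) ≤ k := by exact_mod_cast hk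
  simp only [cc]
  rw [Finset.prod_range_succ, abs_of_nonpos (by linarith)]
  ring

theorem cc_pos (k : ℕ) : 0 < cc k := by
  unfold cc
  apply Finset.prod_pos
  intro j _
  apply abs_pos.mpr
  intro h
  have h2 : (2 * j : ℝ) = 1 := by linarith
  have h3 : 2 * j = 1 := by exact_mod_cast h2
  omega

theorem goalSELb : GoalSELb := by
  intro μ s1 Lg hμ hL hs h10 h128
  -- elementary facts
  have hL7 : 7 ≤ Lg := by
    by_contra hcon
    have h1 : Lg ≤ 6 := by omega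
    have h2 : 2 ^ Lg ≤ 2 ^ 6 := Nat.pow_le_pow_right (by norm_num) h1
    have h3 : (2 : ℕ) ^ 6 = 64 := by norm_num
    omega
  have hμR : (1 : ℝ) ≤ μ := by exact_mod_cast hμ
  have hμ0 : (0 : ℝ) < μ := by linarith
  have hLR : (1 : ℝ) ≤ Lg := by exact_mod_cast hL
  have hsR : (2 : ℝ) ^ 200 * (Lg : ℝ) ^ 3 * μ ≤ s1 := by exact_mod_cast hs
  have h10R : (10 : ℝ) * s1 ≤ (μ : ℝ) ^ 2 := by exact_mod_cast h10
  have h128R : (128 : ℝ) * μ ≤ (2 : ℝ) ^ Lg := by exact_mod_cast h128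
  have hL3 : (1 : ℝ) ≤ (Lg : ℝ) ^ 3 := one_le_pow₀ hLR
  have hs1 : (μ : ℝ) ≤ s1 := by
    have h1 : (1 : ℝ) ≤ (2 : ℝ) ^ 200 * (Lg : ℝ) ^ 3 := by
      have : (1 : ℝ) ≤ (2 : ℝ) ^ 200 := by norm_num
      nlinarith
    nlinarith
  have hs0 : (0 : ℝ) < s1 := by linarith
  set ρ : ℝ := (μ : ℝ) ^ 2 / (s1 : ℝ) ^ 2 with hρ
  have hρ0 : 0 < ρ := by positivity
  obtain ⟨E, hE⟩ : ∃ E : ℝ, E = (2 : ℝ) ^ 390 := ⟨_, rfl⟩
  have hE4 : E ≤ (2 : ℝ) ^ 400 := by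
    rw [hE]
    exact pow_le_pow_right₀ (by norm_num) (by norm_num)
  have hE16 : 16 ≤ E := by
    have h1 : (2 : ℝ) ^ 4 ≤ (2 : ℝ) ^ 390 := pow_le_pow_right₀ (by norm_num) (by norm_num)
    have h2 : (2 : ℝ) ^ 4 = 16 := by norm_num
    rw [h2] at h1
    rw [hE]
    exact h1
  have hE0 : 0 < E := lt_of_lt_of_le (by norm_num) hE16
  have hρL : ρ * Lg ≤ 1 / E := by
    have h1 : E * Lg * (μ : ℝ) ^ 2 ≤ (s1 : ℝ) ^ 2 := by
      have h2 : ((2 : ℝ) ^ 200 * (Lg : ℝ) ^ 3 * μ) ^ 2 ≤ (s1 : ℝ) ^ 2 :=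
        pow_le_pow_left₀ (by positivity) hsR 2
      have h3 : ((2 : ℝ) ^ 200 * (Lg : ℝ) ^ 3 * μ) ^ 2 =
          (2 : ℝ) ^ 400 * (Lg : ℝ) ^ 6 * (μ : ℝ) ^ 2 := by
        rw [mul_pow, mul_pow, ← pow_mul, ← pow_mul]
      have h4 : (Lg : ℝ) ≤ (Lg : ℝ) ^ 6 := by
        calc (Lg : ℝ) = (Lg : ℝ) ^ 1 := (pow_one _).symm
          _ ≤ (Lg : ℝ) ^ 6 := pow_le_pow_right₀ hLR (by norm_num)
      have h5 : E * Lg * (μ : ℝ) ^ 2 ≤
          (2 : ℝ) ^ 400 * (Lg : ℝ) ^ 6 * (μ : ℝ) ^ 2 := by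
        have h7 : E * Lg ≤ (2 : ℝ) ^ 400 * (Lg : ℝ) ^ 6 :=
          mul_le_mul hE4 h4 (by positivity) (by positivity)
        exact mul_le_mul_of_nonneg_right h7 (by positivity)
      rw [h3] at h2
      exact le_trans h5 h2
    rw [hρ, div_mul_eq_mul_div, div_le_div_iff₀ (by positivity) (by positivity)]
    linarith
  set D : ℕ → ℝ := fun k => 2 * s1 * ρ ^ k * cc k with hD
  have hDpos : ∀ k, 0 < D k := by
    intro k
    have := cc_pos k
    simp only [hD]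
    positivity
  have hD1 : D 1 = (μ : ℝ) ^ 2 / s1 := by
    simp only [hD, cc_one, hρ]
    field_simp
  have hD1a : 10 ≤ D 1 := by
    rw [hD1, le_div_iff₀ hs0]
    linarith
  have hD1b : D 1 ≤ μ := by
    rw [hD1, div_le_iff₀ hs0]
    nlinarith
  have hDs : ∀ k, 1 ≤ k → D (k + 1) = D k * (ρ * ((k : ℝ) - 1 / 2)) := by
    intro k hk
    simp only [hD]
    rw [cc_succ k hk, pow_succ]
    ring
  have hDb : ∀ j, j + 1 ≤ Lg → D (j + 1) ≤ (1 / E : ℝ) ^ j * D 1 := by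
    intro j
    induction j with
    | zero => intro _; simp
    | succ j ih =>
      intro hj
      have h1 := ih (by omega)
      rw [hDs (j + 1) (by omega), pow_succ]
      have h2 : ρ * (((j + 1 : ℕ) : ℝ) - 1 / 2) ≤ 1 / E := by
        have h3 : (((j + 1 : ℕ) : ℝ) - 1 / 2) ≤ Lg := by
          have : ((j + 1 : ℕ) : ℝ) ≤ Lg := by exact_mod_cast (by omega : j + 1 ≤ Lg)
          linarith
        calc ρ * (((j + 1 : ℕ) : ℝ) - 1 / 2) ≤ ρ * Lg :=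
              mul_le_mul_of_nonneg_left h3 hρ0.le
          _ ≤ _ := hρL
      have h4 : 0 ≤ ρ * (((j + 1 : ℕ) : ℝ) - 1 / 2) := by
        have : (1 : ℝ) ≤ ((j + 1 : ℕ) : ℝ) := by exact_mod_cast (by omega : 1 ≤ j + 1)
        apply mul_nonneg hρ0.le
        linarith
      calc D (j + 1) * (ρ * (((j + 1 : ℕ) : ℝ) - 1 / 2))
          ≤ ((1 / E : ℝ) ^ j * D 1) * (1 / E) :=
            mul_le_mul h1 h2 h4 (by have := hDpos 1; positivity)
        _ = (1 / E : ℝ) ^ j * (1 / E) * D 1 := by ring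
  -- existence
  have hex : ∃ k, 2 ≤ k ∧ k ≤ Lg ∧ D k ≤ 1 / 4 := by
    refine ⟨Lg, by omega, le_rfl, ?_⟩
    obtain ⟨j, rfl⟩ : ∃ j, Lg = j + 1 := ⟨Lg - 1, by omega⟩
    have h1 := hDb j le_rfl
    have h2 : D 1 ≤ (2 : ℝ) ^ (j + 1) := by linarith
    have h3 : (1 / E : ℝ) ^ j * D 1 ≤ (1 / E : ℝ) ^ j * (2 : ℝ) ^ (j + 1) :=
      mul_le_mul_of_nonneg_left h2 (by positivity)
    have h4 : (1 / E : ℝ) ^ j * (2 : ℝ) ^ (j + 1) = (1 / E * 2) ^ j * 2 := by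
      rw [mul_pow, pow_succ (2 : ℝ) j, mul_assoc]
    have h5 : (1 / E * 2 : ℝ) ^ j ≤ (1 / E * 2 : ℝ) ^ 1 := by
      apply pow_le_pow_of_le_one (by positivity) _ (by omega)
      rw [div_mul_eq_mul_div, div_le_iff₀ hE0]
      linarith only [hE16]
    have h6 : (1 / E * 2 : ℝ) ^ 1 * 2 ≤ 1 / 4 := by
      rw [pow_one, div_mul_eq_mul_div, div_mul_eq_mul_div, div_le_div_iff₀ hE0 (by norm_num)]
      linarith only [hE16]
    have h7 : (1 / E * 2 : ℝ) ^ j * 2 ≤ (1 / E * 2 : ℝ) ^ 1 * 2 :=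
      mul_le_mul_of_nonneg_right h5 (by norm_num)
    linarith
  classical
  obtain ⟨hk2, hkL, hk4⟩ := Nat.find_spec hex
  have hmin : ∀ j, j < Nat.find hex → ¬ (2 ≤ j ∧ j ≤ Lg ∧ D j ≤ 1 / 4) :=
    fun j hj => Nat.find_min hex hj
  generalize Nat.find hex = k at hk2 hkL hk4 hmin
  have hkm : 1 / 4 < D (k - 1) := by
    by_cases h : k = 2
    · subst h
      show 1 / 4 < D 1
      linarith
    · by_contra hcon
      push Not at hcon
      exact hmin (k - 1) (by omega) ⟨by omega, by omega, hcon⟩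
  obtain ⟨j, rfl⟩ : ∃ j, k = j + 2 := ⟨k - 2, by omega⟩
  have hkm' : 1 / 4 < D (j + 1) := hkm
  have hsz : (2 : ℕ) ^ (100 * (j + 2)) ≤ 2 ^ 300 * μ := by
    have h1 := hDb j (by omega)
    have h2 : 1 / 4 < (1 / E : ℝ) ^ j * μ := by
      have : (1 / E : ℝ) ^ j * D 1 ≤ (1 / E : ℝ) ^ j * μ :=
        mul_le_mul_of_nonneg_left hD1b (by positivity)
      linarith
    have h3 : E ^ j ≤ 4 * μ := by
      rw [one_div_pow, div_mul_eq_mul_div, div_lt_div_iff₀ (by norm_num) (by positivity)] at h2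
      linarith
    have h4 : (2 : ℝ) ^ (390 * j) ≤ 4 * μ := by
      rw [pow_mul, ← hE]
      exact h3
    have h5 : (2 : ℝ) ^ (100 * (j + 2)) ≤ 2 ^ 300 * μ := by
      by_cases hj0 : j = 0
      · subst hj0
        have h6 : (2 : ℝ) ^ (100 * (0 + 2)) ≤ 2 ^ 300 :=
          pow_le_pow_right₀ (by norm_num) (by norm_num)
        have h7 : (2 : ℝ) ^ 300 * 1 ≤ 2 ^ 300 * μ :=
          mul_le_mul_of_nonneg_left hμR (by positivity)
        rw [mul_one] at h7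
        exact le_trans h6 h7
      · have h6 : (2 : ℝ) ^ (100 * (j + 2)) ≤ 2 ^ (298 + 390 * j) :=
          pow_le_pow_right₀ (by norm_num) (by omega)
        have h7 : (2 : ℝ) ^ (298 + 390 * j) = 2 ^ 298 * 2 ^ (390 * j) := pow_add _ _ _
        have h8 : (2 : ℝ) ^ 298 * 2 ^ (390 * j) ≤ 2 ^ 298 * (4 * μ) :=
          mul_le_mul_of_nonneg_left h4 (by positivity)
        have h9 : (2 : ℝ) ^ 298 * (4 * μ) = 2 ^ 300 * μ := by
          have h10 : (2 : ℝ) ^ (298 + 2) = 2 ^ 298 * 2 ^ 2 := pow_add _ _ _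
          have h11 : (298 + 2 : ℕ) = 300 := by norm_num
          have h12 : (4 : ℝ) = 2 ^ 2 := by norm_num
          rw [h11] at h10
          rw [h10, h12, mul_assoc]
        rw [h7] at h6
        rw [h9] at h8
        exact le_trans h6 h8
    exact_mod_cast h5
  have hDk := hDpos (j + 2)
  set x : ℝ := 1 / (2 * D (j + 2)) with hx
  have hx2 : 2 ≤ x := by
    rw [hx, le_div_iff₀ (by positivity)]
    linarith
  set g : ℕ := ⌊Real.sqrt x⌋₊ with hg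
  have hsq : 1 ≤ Real.sqrt x := by
    rw [show (1 : ℝ) = Real.sqrt 1 by simp]
    exact Real.sqrt_le_sqrt (by linarith)
  have hg1 : 1 ≤ g := by
    rw [hg]
    exact Nat.one_le_floor_iff _ |>.mpr hsq
  have hg1R : (1 : ℝ) ≤ g := by exact_mod_cast hg1
  have hgle : (g : ℝ) ≤ Real.sqrt x := Nat.floor_le (Real.sqrt_nonneg x)
  have hglt : Real.sqrt x < g + 1 := Nat.lt_floor_add_one _
  have hg2 : (g : ℝ) ^ 2 ≤ x := by
    calc (g : ℝ) ^ 2 ≤ (Real.sqrt x) ^ 2 := pow_le_pow_left₀ (by positivity) hgle 2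
      _ = x := Real.sq_sqrt (by linarith)
  have hg3 : x < 4 * (g : ℝ) ^ 2 := by
    have h1 : x = (Real.sqrt x) ^ 2 := (Real.sq_sqrt (by linarith)).symm
    have h2 : (Real.sqrt x) ^ 2 < ((g : ℝ) + 1) ^ 2 :=
      pow_lt_pow_left₀ hglt (Real.sqrt_nonneg x) (by norm_num)
    nlinarith
  have hxD : x * D (j + 2) = 1 / 2 := by
    rw [hx]
    field_simp
  have hup : (g : ℝ) ^ 2 * D (j + 2) ≤ 1 / 2 := by
    rw [← hxD]
    exact mul_le_mul_of_nonneg_right hg2 hDk.le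
  have hlo : 1 / 8 < (g : ℝ) ^ 2 * D (j + 2) := by
    have : x * D (j + 2) < 4 * (g : ℝ) ^ 2 * D (j + 2) := mul_lt_mul_of_pos_right hg3 hDk
    linarith
  have hρD : ρ / 8 ≤ D (j + 2) := by
    have h1 := hDs (j + 1) (by omega)
    have h2 : (1 : ℝ) / 2 ≤ (((j + 1 : ℕ) : ℝ) - 1 / 2) := by
      have : (1 : ℝ) ≤ ((j + 1 : ℕ) : ℝ) := by exact_mod_cast (by omega : 1 ≤ j + 1)
      linarith
    have h3 : (1 : ℝ) / 4 * (ρ * (1 / 2)) ≤ D (j + 1) * (ρ * (((j + 1 : ℕ) : ℝ) - 1 / 2)) :=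
      mul_le_mul hkm'.le (mul_le_mul_of_nonneg_left h2 hρ0.le) (by positivity) (hDpos _).le
    have h4 : D (j + 2) = D (j + 1 + 1) := rfl
    rw [h4, h1]
    linarith
  have hgμ : g * μ ≤ 2 * s1 := by
    have h1 : (g : ℝ) ^ 2 * ρ ≤ 4 := by
      have : (g : ℝ) ^ 2 * (ρ / 8) ≤ (g : ℝ) ^ 2 * D (j + 2) :=
        mul_le_mul_of_nonneg_left hρD (by positivity)
      linarith
    have h2 : ((g : ℝ) * μ) ^ 2 ≤ (2 * s1) ^ 2 := by
      rw [hρ, ← mul_div_assoc, div_le_iff₀ (by positivity)] at h1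
      nlinarith
    have h3 : (g : ℝ) * μ ≤ 2 * s1 := by
      exact (pow_le_pow_iff_left₀ (by positivity) (by positivity) (by norm_num)).mp h2
    exact_mod_cast h3
  exact ⟨j + 2, g, hk2, hkL, hsz, hg1, hgμ, hlo, hup⟩

end Pool.Agent.Helper16.UW
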