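import Mathlib
import Pool.Agent.Helper18.UW.GoalsR

/-! # V3d: natural deaths of the virtual play -/

set_option autoImplicit false

namespace Pool.Agent.Helper16.UW

open Finset
open Pool.Agent.Helper43.Hw (T na va lz Play aa ac sc oo sk U Dd Sd Pn nx bb np two_T T_mono)
open Pool.Agent.Helper18.UW

theorem sum_T (l a n : ℕ) :
    l ^ 2 * (a + n) ^ 3 ≤ 6 * ∑ k ∈ Ico (a + 1) (a + n + 1), T (k * l) + l ^ 2 * a ^ 3 := by
  induction n with
  | zero => simp
  | succ n ih =>
    rw [show a + (n + 1) + 1 = (a + n + 1) + 1 by ring, sum_Ico_succ_top (by omega)]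
    have h1 := two_T ((a + n + 1) * l)
    have h2 : 6 * T ((a + n + 1) * l) =
        3 * ((a + n + 1) * l * ((a + n + 1) * l + 1)) := by omega
    have h3 : 3 * ((a + n + 1) * l * ((a + n + 1) * l + 1)) ≥
        3 * ((a + n + 1) * l * ((a + n + 1) * l)) := by
      apply Nat.mul_le_mul_left
      apply Nat.mul_le_mul_left
      omega
    have h4 : l ^ 2 * (a + (n + 1)) ^ 3 ≤ l ^ 2 * (a + n) ^ 3 +
        3 * ((a + n + 1) * l * ((a + n + 1) * l)) := by
      have e1 : 3 * ((a + n + 1) * l * ((a + n + 1) * l)) = l ^ 2 * (3 * (a + n + 1) ^ 2) := by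
        ring
      rw [e1, ← Nat.mul_add]
      apply Nat.mul_le_mul_left
      nlinarith
    rw [mul_add]
    omega

theorem mono_le {m : ℕ → ℕ} {R N : ℕ} {κ x : ℕ → ℕ} (h : UPlay m R N κ x) {a b : ℕ}
    (hab : a ≤ b) (hb : b < R) : κ a ≤ κ b := by
  induction b, hab using Nat.le_induction with
  | base => exact le_rfl
  | succ b _ ih => exact (ih (by omega)).trans (h.mono b hb)

theorem goalV3d (hU1 : GoalU1) (hV1 : GoalV1) (hR6 : GoalR6d) : GoalV3d := by
  intro m ms M μ δ R N0 N N1 K b l Lg q v lam τ W κ x h rp bx vh hN1 y hτy hyR hw16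
  have hl : 1 ≤ l := h.par.l1
  have hR : 100 * μ ≤ R := h.par.R1
  have hb : 2 ^ 42 ≤ b := le_trans (by have := h.par.L1; omega) h.par.b1
  have hμ : 1 ≤ μ := vh.μ1
  have hμR : μ + 2 ≤ R := by omega
  obtain ⟨a1, a2, a3, a4, a5, a6, a7, -, -⟩ := hU1 m R N κ x vh.m1 (by omega) vh.play
  obtain ⟨p1, p2, p3⟩ := hV1 m μ δ R N N1 (κ τ) τ κ x vh
  obtain ⟨-, r2⟩ := hR6 m ms M μ δ R N0 N K b l Lg q v lam τ W κ x h bx
  set V := 2 ^ q * v with hV
  set J := R - 1 - μ with hJ
  set w := R - 1 - y with hw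
  have hblμ : b * l ≤ μ := by
    have hb2 := h.par.b2
    have e1 : b * l ≤ 2 ^ 33 * b * (q + 1) ^ 2 * l := by
      have e2 : 2 ^ 33 * b * (q + 1) ^ 2 * l = b * l * (2 ^ 33 * (q + 1) ^ 2) := by ring
      rw [e2]
      exact Nat.le_mul_of_pos_right _ (by positivity)
    exact e1.trans hb2
  have hvb := h.vb
  have hvc := h.vc
  have hd1 := h.d1
  have ht1 := rp.t1
  have ht2 := rp.t2
  have hτ : 1 ≤ τ := vh.t1
  have hτJ : τ + 1 + μ ≤ R := vh.tJ
  have hVμ : 1280 * V ≤ μ := by omega
  have hwμ : w ≤ μ + V := by omega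
  have hlV : 2 ^ 42 * l ≤ 2560 * V := le_trans (Nat.mul_le_mul_right l hb) hvc
  have hlw : 1000000 * l ≤ w := by omega
  set a := V / l with ha
  have hal : a * l ≤ V := Nat.div_mul_le_self V l
  have hal2 : V < (a + 1) * l := by
    have := Nat.lt_div_mul_add (a := V) (b := l) (by omega)
    have e : (a + 1) * l = V / l * l + l := by rw [ha]; ring
    rw [e]; exact this
  set K' := (w - δ) / l - 2 with hK
  have hdiv : 14 ≤ (w - δ) / l := (Nat.le_div_iff_mul_le (by omega)).2 (by omega)
  have hwl : (w - δ) / l = K' + 2 := by omega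
  have hKl : ∀ k ≤ K', (k + 2) * l + δ ≤ w := by
    intro k hk
    have e1 : (k + 2) * l ≤ ((w - δ) / l) * l := Nat.mul_le_mul_right l (by omega)
    have e2 := e1.trans (Nat.div_mul_le_self (w - δ) l)
    omega
  have hwlt : w < (K' + 3) * l + δ := by
    have := Nat.lt_div_mul_add (a := w - δ) (b := l) (by omega)
    have e : (K' + 3) * l = (w - δ) / l * l + l := by rw [hwl]; ring
    omega
  have haK : a ≤ K' := by
    by_contra hc
    push Not at hc
    have e1 : (K' + 1) * l ≤ a * l := Nat.mul_le_mul_right l hc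
    have e2 : (K' + 3) * l = (K' + 1) * l + 2 * l := by ring
    omega
  obtain ⟨n, hn⟩ := Nat.exists_eq_add_of_le haK
  have hkl : ∀ k, a < k → V < k * l := by
    intro k hk
    have : (a + 1) * l ≤ k * l := Nat.mul_le_mul_right l hk
    omega
  -- R6d
  have hstep : ∀ k, a < k → k ≤ K' → κ (J - (k + 2) * l) < κ (J - (k + 1) * l) := by
    intro k hk0 hk
    have e1 := hKl k hk
    have e0 := hkl k hk0
    have e2 : (k + 2) * l = (k + 1) * l + l := by ring
    have e2' : (k + 1) * l = k * l + l := by ring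
    have g1 : R ≤ J - (k + 2) * l + 50 * μ := by omega
    have g2 : J - (k + 2) * l + l < τ := by omega
    have e3 := r2 (J - (k + 2) * l) g1 g2
    have e4 : J - (k + 2) * l + l = J - (k + 1) * l := by omega
    rw [e4] at e3
    exact e3
  have hstep0 : ∀ k, a < k → k ≤ K' → κ (J - (k + 1) * l) < κ (J - k * l) := by
    intro k hk0 hk
    have e1 := hKl k hk
    have e0 := hkl k hk0
    have e2 : (k + 2) * l = k * l + l + l := by ring
    have e2' : (k + 1) * l = k * l + l := by ring
    have g1 : R ≤ J - (k + 1) * l + 50 * μ := by omega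
    have g2 : J - (k + 1) * l + l < τ := by omega
    have e3 := r2 (J - (k + 1) * l) g1 g2
    have e4 : J - (k + 1) * l + l = J - k * l := by omega
    rw [e4] at e3
    exact e3
  set f : ℕ → ℕ := fun k => κ (J - (k + 1) * l) with hf
  -- the points
  have hpt : ∀ k, a < k → k ≤ K' → N1 ≤ f k ∧ f k < κ τ ∧
      f k - N1 < vk m μ R N1 (κ τ) κ y ∧
      0 < va μ R (vk m μ R N1 (κ τ) κ) (vx m μ R N1 (κ τ) κ x) (f k - N1) y ∧
      k * l ≤ J - ac R (vk m μ R N1 (κ τ) κ) (vx m μ R N1 (κ τ) κ x) (f k - N1) := by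
    intro k hk0 hk
    have e1 := hKl k hk
    have e0 := hkl k hk0
    have e2 : (k + 2) * l = k * l + l + l := by ring
    have e2' : (k + 1) * l = k * l + l := by ring
    have hs := hstep k hk0 hk
    have hs0 := hstep0 k hk0 hk
    have c1 : J - (k + 2) * l < ac R κ x (f k) := by
      rw [← (a1 (f k) (J - (k + 2) * l) (by omega)).2]
      simp only [aa, hf]
      split_ifs <;> omega
    have c2 : sc R κ (f k) ≤ J - k * l := by
      by_contra hc
      push Not at hc
      have := (a1 (f k) (J - k * l) (by omega)).1.2 hc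
      simp only [hf] at this
      omega
    have c3 := a3 (f k)
    have c4 : f k < κ τ := by
      by_contra hc
      push Not at hc
      have := (a1 (f k) τ (by omega)).1.1 hc
      omega
    have c5 : N1 ≤ f k := by
      have d1 : κ (R - 56 * μ) ≤ κ (J - (k + 2) * l) := mono_le vh.play (by omega) (by omega)
      have d2 : aa κ x (R - 56 * μ) ≤ κ (R - 56 * μ) + 1 := by
        simp only [aa]
        split_ifs <;> omega
      simp only [hf]
      omega
    obtain ⟨q1, q2, q3⟩ := p3 (f k) c5 c4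
    have q4 := (p2 y hτy hyR).1
    obtain ⟨m1, m2⟩ := vh.main (f k) c5 (c4.trans vh.gN)
    have c6 : κ y = κ τ := (vh.pa y hτy hyR).1
    refine ⟨c5, c4, by omega, ?_, by omega⟩
    rw [q3 y hτy hyR]
    rw [(a6 y hyR (f k) (by omega)).2.2.2]
    omega
  have hanti : ∀ k, a < k → ∀ m', k + m' ≤ K' → 0 < m' → f (k + m') < f k := by
    intro k hk0 m'
    induction m' with
    | zero => intro _ h; omega
    | succ m' ih =>
      intro hle _
      have s1 : f (k + (m' + 1)) < f (k + m') := by
        have := hstep (k + m') (by omega) (by omega)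
        simpa [hf, Nat.add_assoc] using this
      rcases Nat.eq_zero_or_pos m' with h0 | h0
      · subst h0; simpa using s1
      · exact s1.trans (ih (by omega) h0)
  have hinj : Set.InjOn (fun k => f k - N1) (Ico (a + 1) (a + n + 1) : Finset ℕ) := by
    intro k hk k' hk' hkk
    simp only [coe_Ico, Set.mem_Ico] at hk hk'
    have g1 := (hpt k (by omega) (by omega)).1
    have g2 := (hpt k' (by omega) (by omega)).1
    have hkk2 : f k - N1 = f k' - N1 := hkk
    have hkk3 : f k = f k' := by omega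
    rcases lt_trichotomy k k' with h | h | h
    · have := hanti k (by omega) (k' - k) (by omega) (by omega)
      rw [Nat.add_sub_cancel' h.le] at this
      omega
    · exact h
    · have := hanti k' (by omega) (k - k') (by omega) (by omega)
      rw [Nat.add_sub_cancel' h.le] at this
      omega
  have hsum : ∑ k ∈ Ico (a + 1) (a + n + 1), T (k * l) ≤
      Dd μ R (vk m μ R N1 (κ τ) κ) (vx m μ R N1 (κ τ) κ x) y := by
    calc ∑ k ∈ Ico (a + 1) (a + n + 1), T (k * l)
        ≤ ∑ k ∈ Ico (a + 1) (a + n + 1),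
            T (J - ac R (vk m μ R N1 (κ τ) κ) (vx m μ R N1 (κ τ) κ x) (f k - N1)) := by
          refine sum_le_sum fun k hk => T_mono ?_
          rw [mem_Ico] at hk
          exact (hpt k (by omega) (by omega)).2.2.2.2
      _ = ∑ c ∈ (Ico (a + 1) (a + n + 1)).image (fun k => f k - N1),
            T (J - ac R (vk m μ R N1 (κ τ) κ) (vx m μ R N1 (κ τ) κ x) c) := by
          rw [sum_image hinj]
      _ ≤ Dd μ R (vk m μ R N1 (κ τ) κ) (vx m μ R N1 (κ τ) κ x) y := by
          unfold Dd
          apply sum_le_sum_of_subset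
          intro c hc
          obtain ⟨k, hk, rfl⟩ := mem_image.1 hc
          rw [mem_Ico] at hk
          have := hpt k (by omega) (by omega)
          simp only [mem_filter, mem_range]
          exact ⟨this.2.2.1, this.2.2.2.1⟩
  have hsq := sum_T l a n
  rw [← hn] at hsq hsum
  set D := Dd μ R (vk m μ R N1 (κ τ) κ) (vx m μ R N1 (κ τ) κ x) y with hD
  have h12 : l ^ 2 * K' ^ 3 ≤ 6 * D + l ^ 2 * a ^ 3 := by omega
  have h13 : (K' * l) ^ 3 ≤ 6 * (l * D) + (a * l) ^ 3 := by
    have := Nat.mul_le_mul_left l h12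
    have e1 : l * (l ^ 2 * K' ^ 3) = (K' * l) ^ 3 := by ring
    have e2 : l * (6 * D + l ^ 2 * a ^ 3) = 6 * (l * D) + (a * l) ^ 3 := by ring
    rw [e1, e2] at this
    exact this
  have h14 : (4 * (a * l)) ^ 3 ≤ w ^ 3 := Nat.pow_le_pow_left (by omega) 3
  have h15 : (99 * w) ^ 3 ≤ (100 * (K' * l)) ^ 3 := by
    apply Nat.pow_le_pow_left
    have e : (K' + 3) * l = K' * l + 3 * l := by ring
    omega
  have e14 : (4 * (a * l)) ^ 3 = 64 * (a * l) ^ 3 := by ring
  have e15 : (99 * w) ^ 3 = 970299 * w ^ 3 := by ring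
  have e16 : (100 * (K' * l)) ^ 3 = 1000000 * (K' * l) ^ 3 := by ring
  rw [e14] at h14
  rw [e15, e16] at h15
  have e17 : 8 * l * D = 8 * (l * D) := by ring
  rw [e17]
  omega

end Pool.Agent.Helper16.UW
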